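import Pool.Agent.H66.DiscMain

set_option autoImplicit false

namespace Pool.Agent.Results.MP_3339db_co.NoFiniteOptimal

open Real MeasureTheory Set

/-- The payoff `K_c(s,t)` to RED of the symmetrized hiding-in-a-disc game: the proportion of angles
`θ ∈ [0, 2π)` with `s² + t² - 2 s t cos θ ≤ c²` (`s` is RED's radius, `t` is BLUE's radius). -/
noncomputable def kernel (c s t : ℝ) : ℝ :=
  (volume {θ : ℝ | θ ∈ Ico 0 (2 * π) ∧ s ^ 2 + t ^ 2 - 2 * s * t * cos θ ≤ c ^ 2}).toReal / (2 * π)

/-- A mixed strategy: a Borel probability measure on `ℝ` carried by `[0,1]`. -/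
def IsStrategy (μ : Measure ℝ) : Prop := IsProbabilityMeasure μ ∧ μ (Icc 0 1)ᶜ = 0

/-- The measure is carried by a finite set of points. -/
def FinitelySupported (μ : Measure ℝ) : Prop := ∃ F : Finset ℝ, μ (F : Set ℝ)ᶜ = 0

/-- Expected payoff to RED when RED plays `μ` and BLUE plays `ν`. -/
noncomputable def payoff (c : ℝ) (μ ν : Measure ℝ) : ℝ := ∫ s, ∫ t, kernel c s t ∂ν ∂μ

theorem dirac_strategy {x : ℝ} (h0 : 0 ≤ x) (h1 : x ≤ 1) : IsStrategy (Measure.dirac x) := by
  refine ⟨inferInstance, ?_⟩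
  rw [Measure.dirac_apply' _ measurableSet_Icc.compl]
  simp [h0, h1]

theorem payoff_dirac_right (c t : ℝ) (μ : Measure ℝ) :
    payoff c μ (Measure.dirac t) = ∫ s, kernel c s t ∂μ := by
  unfold payoff
  simp only [integral_dirac]

theorem payoff_dirac_left (c s : ℝ) (ν : Measure ℝ) :
    payoff c (Measure.dirac s) ν = ∫ t, kernel c s t ∂ν := by
  unfold payoff
  rw [integral_dirac]

theorem integral_fin {μ : Measure ℝ} [IsProbabilityMeasure μ] {F : Finset ℝ}
    (hF : μ (F : Set ℝ)ᶜ = 0) (f : ℝ → ℝ) : ∫ x, f x ∂μ = ∑ x ∈ F, μ.real {x} * f x := by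
  have h1 : μ.restrict (F : Set ℝ) = μ :=
    Measure.restrict_eq_self_of_ae_mem (by rw [ae_iff]; exact hF)
  have h2 : ∫ x in (F : Set ℝ), f x ∂μ = ∑ x ∈ F, μ.real {x} • f x :=
    setIntegral_finset F IntegrableOn.finset
  rw [h1] at h2
  simpa using h2

open Pool.Agent.H66.Disc in
theorem kernel_eq {c s t : ℝ} (hs : 0 ≤ s) (ht : 0 ≤ t) : kernel c s t = k c s t / π := by
  have hpi := pi_pos
  by_cases h0 : s = 0 ∨ t = 0
  · have hz : ∀ θ : ℝ, s ^ 2 + t ^ 2 - 2 * s * t * cos θ = s ^ 2 + t ^ 2 := by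
      intro θ
      rcases h0 with h | h <;> simp [h]
    unfold kernel k
    rw [if_pos h0]
    simp only [hz]
    split_ifs with h1
    · simp only [h1, and_true]
      rw [show {θ : ℝ | θ ∈ Ico 0 (2 * π)} = Ico 0 (2 * π) from rfl, Real.volume_Ico, sub_zero,
        ENNReal.toReal_ofReal (by positivity), div_self (by positivity), div_self hpi.ne']
    · simp [h1]
  · rw [not_or] at h0
    have hs' : 0 < s := lt_of_le_of_ne hs (Ne.symm h0.1)
    have ht' : 0 < t := lt_of_le_of_ne ht (Ne.symm h0.2)
    rw [k_pos_def hs' ht']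
    have hiff : ∀ θ : ℝ, s ^ 2 + t ^ 2 - 2 * s * t * cos θ ≤ c ^ 2 ↔ u c s t ≤ cos θ := by
      intro θ
      unfold u
      rw [div_le_iff₀ (by positivity)]
      constructor <;> intro h <;> linarith
    unfold kernel
    simp only [hiff]
    rcases le_or_gt (u c s t) (-1) with h1 | h1
    · have : {θ : ℝ | θ ∈ Ico 0 (2 * π) ∧ u c s t ≤ cos θ} = Ico 0 (2 * π) := by
        ext θ
        simp only [mem_ofPred_eq, and_iff_left_iff_imp]
        intro _
        exact h1.trans (neg_one_le_cos θ)
      rw [this, Real.volume_Ico, sub_zero, ENNReal.toReal_ofReal (by positivity),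
        div_self (by positivity), arccos_of_le_neg_one h1, div_self hpi.ne']
    · rcases le_or_gt (u c s t) 1 with h2 | h2
      · set α := arccos (u c s t) with hα
        have hα0 : 0 ≤ α := arccos_nonneg _
        have hαpi : α < π := by
          rw [hα]
          have := strictAntiOn_arccos (a := -1) (b := u c s t) ⟨le_rfl, by norm_num⟩ ⟨h1.le, h2⟩ h1
          rwa [arccos_neg_one] at this
        have hmem : ∀ θ : ℝ, 0 ≤ θ → θ ≤ π → (u c s t ≤ cos θ ↔ θ ≤ α) := by
          intro θ h3 h4
          constructor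
          · intro h5
            have := arccos_le_arccos h5
            rwa [arccos_cos h3 h4] at this
          · intro h5
            have := cos_le_cos_of_nonneg_of_le_pi h3 (arccos_le_pi _) h5
            rwa [cos_arccos h1.le h2] at this
        have hset : {θ : ℝ | θ ∈ Ico 0 (2 * π) ∧ u c s t ≤ cos θ} =
            Icc 0 α ∪ Ico (2 * π - α) (2 * π) := by
          ext θ
          simp only [mem_ofPred_eq, mem_Ico, mem_union, mem_Icc]
          constructor
          · rintro ⟨⟨h3, h4⟩, h5⟩
            rcases le_or_gt θ π with h6 | h6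
            · left; exact ⟨h3, (hmem θ h3 h6).mp h5⟩
            · right
              rw [← cos_two_pi_sub] at h5
              have := (hmem (2 * π - θ) (by linarith) (by linarith)).mp h5
              exact ⟨by linarith, h4⟩
          · rintro (⟨h3, h4⟩ | ⟨h3, h4⟩)
            · exact ⟨⟨h3, by linarith⟩, (hmem θ h3 (by linarith)).mpr h4⟩
            · refine ⟨⟨by linarith, h4⟩, ?_⟩
              rw [← cos_two_pi_sub]
              exact (hmem (2 * π - θ) (by linarith) (by linarith)).mpr (by linarith)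
        have hdisj : Disjoint (Icc 0 α) (Ico (2 * π - α) (2 * π)) := by
          rw [Set.disjoint_left]
          rintro x ⟨_, h3⟩ ⟨h4, _⟩
          linarith
        rw [hset, measure_union hdisj measurableSet_Ico, Real.volume_Icc, Real.volume_Ico,
          ENNReal.toReal_add ENNReal.ofReal_ne_top ENNReal.ofReal_ne_top,
          ENNReal.toReal_ofReal (by linarith), ENNReal.toReal_ofReal (by linarith)]
        field_simp
        ring
      · have : {θ : ℝ | θ ∈ Ico 0 (2 * π) ∧ u c s t ≤ cos θ} = ∅ := by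
          ext θ
          simp only [mem_ofPred_eq, mem_empty_iff_false, iff_false, not_and, not_le]
          intro _
          exact lt_of_le_of_lt (cos_le_one θ) h2
        rw [this, arccos_of_one_le h2.le]
        simp

/-- **No finitely supported optimal strategies.** Let `(√5 - 1)/2 < c < 1/√2`. Then for no real number `v`
can RED guarantee at least `v` by a finitely supported strategy while BLUE guarantees at most `v` by a
finitely supported strategy. In particular (for `v` the value of the game) at least one of the players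
has no finitely supported optimal strategy. -/
theorem result (c : ℝ) (h1 : (√5 - 1) / 2 < c) (h2 : c < 1 / √2) (v : ℝ) :
    ¬ ((∃ μ : Measure ℝ, IsStrategy μ ∧ FinitelySupported μ ∧
          ∀ ν : Measure ℝ, IsStrategy ν → v ≤ payoff c μ ν) ∧
        (∃ ν : Measure ℝ, IsStrategy ν ∧ FinitelySupported ν ∧
          ∀ μ : Measure ℝ, IsStrategy μ → payoff c μ ν ≤ v)) := by
  rintro ⟨⟨μ, ⟨hμp, hμI⟩, ⟨F, hF⟩, hμ⟩, ⟨ν, ⟨hνp, hνI⟩, ⟨G, hG⟩, hν⟩⟩
  have hpi := pi_pos
  have h5 : √5 ^ 2 = 5 := sq_sqrt (by norm_num)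
  have h50 : 0 < √5 := sqrt_pos.mpr (by norm_num)
  have h51 : 1 < √5 := by nlinarith
  have hc0 : 0 < c := by linarith
  have hc1 : 1 < c ^ 2 + c := by nlinarith
  have h20 : 0 < √2 := sqrt_pos.mpr (by norm_num)
  have h22 : √2 ^ 2 = 2 := sq_sqrt (by norm_num)
  have hc2 : 2 * c ^ 2 < 1 := by
    rw [lt_div_iff₀ h20] at h2
    have h3 : 0 < c * √2 := mul_pos hc0 h20
    have h4 : (c * √2) ^ 2 < 1 := by nlinarith
    rw [mul_pow, h22] at h4
    linarith
  -- reduce to finite sums
  have supp : ∀ (ρ : Measure ℝ) [IsProbabilityMeasure ρ] (H : Finset ℝ), ρ (Icc 0 1)ᶜ = 0 →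
      ρ (H : Set ℝ)ᶜ = 0 → ∃ A : Finset ℝ, (∀ s ∈ A, 0 ≤ s ∧ s ≤ 1) ∧ (∀ s ∈ A, 0 < ρ.real {s}) ∧
        ∀ f : ℝ → ℝ, ∫ x, f x ∂ρ = ∑ x ∈ A, ρ.real {x} * f x := by
    intro ρ _ H hI hH
    refine ⟨H.filter fun x => 0 < ρ.real {x}, ?_, ?_, ?_⟩
    · intro s hs
      rw [Finset.mem_filter] at hs
      by_contra hcon
      have hsub : ({s} : Set ℝ) ⊆ (Icc 0 1)ᶜ := by
        intro x hx
        rw [mem_singleton_iff] at hx
        subst hx
        exact fun hx => hcon ⟨hx.1, hx.2⟩
      have h0 : ρ {s} = 0 := measure_mono_null hsub hI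
      have h3 : ρ.real {s} = 0 := by rw [Measure.real, h0]; rfl
      linarith [hs.2]
    · intro s hs
      exact (Finset.mem_filter.mp hs).2
    · intro f
      rw [integral_fin hH f, Finset.sum_filter]
      apply Finset.sum_congr rfl
      intro x _
      split_ifs with h0
      · rfl
      · have h3 : ρ.real {x} = 0 := le_antisymm (not_lt.mp h0) measureReal_nonneg
        rw [h3, zero_mul]
  obtain ⟨A, hA, ha, hAf⟩ := supp μ F hμI hF
  obtain ⟨B, hB, hb, hBf⟩ := supp ν G hνI hG
  have sad : Pool.Agent.H66.Disc.Sad c (π * v) A B (fun s => μ.real {s}) (fun t => ν.real {t}) := by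
    refine ⟨hc0, hc1, hc2, hA, ha, ?_, hB, hb, ?_, ?_, ?_⟩
    · have := hAf (fun _ => 1)
      simpa using this.symm
    · have := hBf (fun _ => 1)
      simpa using this.symm
    · intro t ht0 ht1
      have h3 := hμ _ (dirac_strategy ht0 ht1)
      rw [payoff_dirac_right, hAf] at h3
      calc π * v ≤ π * ∑ x ∈ A, μ.real {x} * kernel c x t := mul_le_mul_of_nonneg_left h3 hpi.le
        _ = ∑ s ∈ A, μ.real {s} * Pool.Agent.H66.Disc.k c s t := by
          rw [Finset.mul_sum]
          apply Finset.sum_congr rfl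
          intro x hx
          rw [kernel_eq (hA x hx).1 ht0]
          field_simp
    · intro s hs0 hs1
      have h3 := hν _ (dirac_strategy hs0 hs1)
      rw [payoff_dirac_left, hBf] at h3
      calc ∑ t ∈ B, ν.real {t} * Pool.Agent.H66.Disc.k c s t
          = π * ∑ x ∈ B, ν.real {x} * kernel c s x := by
            rw [Finset.mul_sum]
            apply Finset.sum_congr rfl
            intro x hx
            rw [kernel_eq hs0 (hB x hx).1]
            field_simp
        _ ≤ π * v := mul_le_mul_of_nonneg_left h3 hpi.le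
  exact sad.false_of_sad

end Pool.Agent.Results.MP_3339db_co.NoFiniteOptimal
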